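import Pool.Agent.W680.WH.Stm2

set_option autoImplicit false

open scoped ComplexConjugate InnerProductSpace
open ContinuousLinearMap Filter

namespace Pool.Agent.W584.WH

open Pool.Agent.W680.WH

theorem tGCO (hG : S_GAM2) (hP : S_PAR) (hC : S_CO1) : S_GCO := by
  obtain ⟨Γ, C, h1, h2, h3, h4⟩ := hG
  refine ⟨Γ, C, h1, h2, h3, ?_⟩
  intro ψ x ε hε
  have hC0 : 0 ≤ C := (norm_nonneg _).trans (h3 ψ)
  obtain ⟨δ, hδ, hco⟩ := hC Γ C h2 h3 h4 x (ε / (2 * (C + 1))) (by positivity)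
  obtain ⟨η, hη, hpar⟩ := hP ψ δ hδ
  refine ⟨η, hη, ?_⟩
  intro φ hc ha
  obtain ⟨χ, hχ, hc', ha'⟩ := hpar φ hc ha
  have h5 := hco χ hc' ha'
  have h6 : Γ φ = Γ ψ * Γ χ := h2 ψ χ φ hχ
  have h7 : (Γ φ : E2 →L[ℂ] E2) x - (Γ ψ : E2 →L[ℂ] E2) x =
      (Γ ψ : E2 →L[ℂ] E2) ((Γ χ : E2 →L[ℂ] E2) x - x) := by
    rw [h6, Units.val_mul, ContinuousLinearMap.mul_apply, map_sub]
  rw [h7]
  have h8 : ‖(Γ ψ : E2 →L[ℂ] E2) ((Γ χ : E2 →L[ℂ] E2) x - x)‖ ≤ C * (ε / (2 * (C + 1))) :=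
    ((Γ ψ : E2 →L[ℂ] E2).le_opNorm _).trans
      (mul_le_mul (h3 ψ) h5 (norm_nonneg _) hC0)
  refine h8.trans_lt ?_
  rw [mul_div_assoc', div_lt_iff₀ (by positivity)]
  nlinarith

end Pool.Agent.W584.WH
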